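import Pool.Agent.V5helper28.KP.Stm4

/-! Project KP (helper28), job PAC: packing. -/

set_option autoImplicit false

namespace Pool.Agent.V5helper72.KP

open MeasureTheory Set
open Pool.Agent.V5helper28.SSK Pool.Agent.V5helper28.KP

theorem t_PAC : S_PAC := by
  intro d m v r κ M hr _ hκ _ hsep
  obtain ⟨t, -, htf, hcov⟩ := (isCompact_closedBall (0 : E d) M).finite_cover_balls (e := κ / 2) (by positivity)
  refine ⟨max 1 (htf.toFinset.card : ℝ), le_max_left _ _, fun n u => ?_⟩
  refine le_trans ?_ (le_max_right _ _)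
  have hrn : 0 < r ^ n := by positivity
  have h1 : ∀ u' : {u' : Fin n → Fin m // ‖X v r n u' - X v r n u‖ ≤ M * r ^ n},
      ∃ x : htf.toFinset, (r ^ n)⁻¹ • (X v r n u' - X v r n u) ∈ Metric.ball (x : E d) (κ / 2) := by
    rintro ⟨u', hu'⟩
    have hmem : (r ^ n)⁻¹ • (X v r n u' - X v r n u) ∈ Metric.closedBall (0 : E d) M := by
      rw [mem_closedBall_zero_iff, norm_smul, Real.norm_eq_abs, abs_of_pos (by positivity),
        inv_mul_le_iff₀ hrn, mul_comm]
      exact hu'
    have h2 := hcov hmem
    simp only [Set.mem_iUnion] at h2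
    obtain ⟨x, hx, hxb⟩ := h2
    exact ⟨⟨x, htf.mem_toFinset.mpr hx⟩, hxb⟩
  choose g hg using h1
  have hinj : Function.Injective g := by
    intro a b hab
    by_contra hne
    have hne' : (a : Fin n → Fin m) ≠ b := fun h => hne (Subtype.ext h)
    have h2 := hsep n a b hne'
    have h3 := hg a
    have h4 := hg b
    rw [hab] at h3
    rw [Metric.mem_ball, dist_eq_norm] at h3 h4
    have h5 : ‖(r ^ n)⁻¹ • (X v r n (a : Fin n → Fin m) - X v r n (b : Fin n → Fin m))‖ < κ := by
      have e : (r ^ n)⁻¹ • (X v r n (a : Fin n → Fin m) - X v r n (b : Fin n → Fin m)) =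
          ((r ^ n)⁻¹ • (X v r n (a : Fin n → Fin m) - X v r n u) - (g b : E d)) -
          ((r ^ n)⁻¹ • (X v r n (b : Fin n → Fin m) - X v r n u) - (g b : E d)) := by
        simp only [smul_sub]
        abel
      rw [e]
      refine lt_of_le_of_lt (norm_sub_le _ _) ?_
      linarith
    rw [norm_smul, Real.norm_eq_abs, abs_of_pos (by positivity), inv_mul_lt_iff₀ hrn] at h5
    have h8 : r ^ n * κ = κ * r ^ n := mul_comm _ _
    linarith
  have h6 := Nat.card_le_card_of_injective g hinj
  have h7 : Nat.card htf.toFinset = htf.toFinset.card := by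
    rw [Nat.card_eq_fintype_card, Fintype.card_coe]
  rw [h7] at h6
  exact_mod_cast h6

end Pool.Agent.V5helper72.KP
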